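import Pool.Agent.H65.Qm.Fin

/-!
# The additive group of the rational numbers in an asymptotically rigid mapping class group
-/

set_option autoImplicit false

namespace Pool.Agent.Results.MP_dd8834_al.RationalSubgroup

open Pool.Agent.Q238.AR

/-- There is a locally finite planar tree, with a thickening and a rigid structure, whose
asymptotically rigid mapping class group has a subgroup isomorphic to the additive group of the
rational numbers. -/
theorem result : ∃ (X : RigidSurface) (H : Subgroup X.Mod), Nonempty (Multiplicative ℚ ≃* H) :=
  ⟨Pool.Agent.H65.Qm.YY, Pool.Agent.H65.Qm.FQ.range,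
    ⟨MonoidHom.ofInjective Pool.Agent.H65.Qm.FQ_inj⟩⟩

end Pool.Agent.Results.MP_dd8834_al.RationalSubgroup
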